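import Pool.Agent.P.MP_fa2423_pr.Crit

set_option autoImplicit false

namespace Pool.Agent.Results.MP_fa2423_pr.Critical

/-- Critical case, mean degree one: for almost every `z` in the unit disc, with probability tending
to one the least singular value of `A - z` is at most `exp (-n^(1/3) / (log n)^3)` and larger than
`exp (-n^(1/3) (log n)^5)`. -/
theorem result :
    ∀ᵐ z : ℂ ∂MeasureTheory.volume, ‖z‖ < 1 →
      Filter.Tendsto
        (fun n : ℕ =>
          ∑ B : Fin n → Fin n → Bool,
            Set.indicator
              {B : Fin n → Fin n → Bool |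
                (∃ v : Fin n → ℂ, (∑ i, ‖v i‖ ^ 2 = 1) ∧
                  ∑ i, ‖(Matrix.mulVec
                      (Matrix.of (fun i j => if B i j then (1 : ℂ) else 0)
                        - z • (1 : Matrix (Fin n) (Fin n) ℂ)) v) i‖ ^ 2
                    ≤ (Real.exp (-((n : ℝ) ^ (1 / 3 : ℝ) / Real.log n ^ 3))) ^ 2) ∧
                ¬ (∃ v : Fin n → ℂ, (∑ i, ‖v i‖ ^ 2 = 1) ∧
                  ∑ i, ‖(Matrix.mulVec
                      (Matrix.of (fun i j => if B i j then (1 : ℂ) else 0)
                        - z • (1 : Matrix (Fin n) (Fin n) ℂ)) v) i‖ ^ 2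
                    ≤ (Real.exp (-((n : ℝ) ^ (1 / 3 : ℝ) * Real.log n ^ 5))) ^ 2)}
              (fun B : Fin n → Fin n → Bool =>
                ∏ i, ∏ j, if B i j then 1 / (n : ℝ) else 1 - 1 / (n : ℝ))
              B)
        Filter.atTop (nhds 1) := by
  filter_upwards [Pool.Agent.Fa2423.critical] with z hz hz1
  exact (hz hz1).congr fun n => Pool.Agent.Fa2423.Ex_ind_eq _ _

end Pool.Agent.Results.MP_fa2423_pr.Critical
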