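import Pool.Agent.P.MP_fa2423_pr.CritAll

set_option autoImplicit false

namespace Pool.Agent.Results.MP_fa2423_pr.Sharp

/-- For every mean degree `α > 0`, almost every `z` and every `ε > 0`, the probability that the
least singular value of `A - z` is at most `exp (-n^κ (log n)^(3+ε))` tends to zero, where
`κ = 1/3` for `α = 1` and `κ = 0` otherwise. -/
theorem result :
    ∀ α : ℝ, 0 < α →
      ∀ᵐ z : ℂ ∂MeasureTheory.volume, ∀ ε : ℝ, 0 < ε →
        Filter.Tendsto
          (fun n : ℕ =>
            ∑ B : Fin n → Fin n → Bool,
              Set.indicator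
                {B : Fin n → Fin n → Bool |
                  ∃ v : Fin n → ℂ, (∑ i, ‖v i‖ ^ 2 = 1) ∧
                    ∑ i, ‖(Matrix.mulVec
                        (Matrix.of (fun i j => if B i j then (1 : ℂ) else 0)
                          - z • (1 : Matrix (Fin n) (Fin n) ℂ)) v) i‖ ^ 2
                      ≤ (Real.exp (-((n : ℝ) ^ (if α = 1 then (1 / 3 : ℝ) else 0)
                          * Real.log n ^ (3 + ε)))) ^ 2}
                (fun B : Fin n → Fin n → Bool =>
                  ∏ i, ∏ j, if B i j then α / (n : ℝ) else 1 - α / (n : ℝ))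
                B)
          Filter.atTop (nhds 0) := by
  intro α a0
  filter_upwards [Pool.Agent.Fa2423.sharp α a0] with z hz ε hε
  exact (hz ε hε).congr fun n => Pool.Agent.Fa2423.Ex_ind_eq _ _

end Pool.Agent.Results.MP_fa2423_pr.Sharp
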