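import Pool.Agent.P.MP_fa2423_pr.Sub

set_option autoImplicit false

namespace Pool.Agent.Results.MP_fa2423_pr.Subcritical

/-- Subcritical case: for almost every `z`, with probability tending to one the least singular
value of `A - z` lies between `n^(-γ-ε)` and `n^(-γ+ε)`, where `γ = max 0 (log |z| / log α)`. -/
theorem result :
    ∀ α : ℝ, 0 < α → α < 1 →
      ∀ᵐ z : ℂ ∂MeasureTheory.volume, ∀ ε : ℝ, 0 < ε →
        Filter.Tendsto
          (fun n : ℕ =>
            ∑ B : Fin n → Fin n → Bool,
              Set.indicator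
                {B : Fin n → Fin n → Bool |
                  (∃ v : Fin n → ℂ, (∑ i, ‖v i‖ ^ 2 = 1) ∧
                    ∑ i, ‖(Matrix.mulVec
                        (Matrix.of (fun i j => if B i j then (1 : ℂ) else 0)
                          - z • (1 : Matrix (Fin n) (Fin n) ℂ)) v) i‖ ^ 2
                      ≤ ((n : ℝ) ^ (-max 0 (Real.log ‖z‖ / Real.log α) + ε)) ^ 2) ∧
                  ¬ (∃ v : Fin n → ℂ, (∑ i, ‖v i‖ ^ 2 = 1) ∧
                    ∑ i, ‖(Matrix.mulVec
                        (Matrix.of (fun i j => if B i j then (1 : ℂ) else 0)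
                          - z • (1 : Matrix (Fin n) (Fin n) ℂ)) v) i‖ ^ 2
                      ≤ ((n : ℝ) ^ (-max 0 (Real.log ‖z‖ / Real.log α) - ε)) ^ 2)}
                (fun B : Fin n → Fin n → Bool =>
                  ∏ i, ∏ j, if B i j then α / (n : ℝ) else 1 - α / (n : ℝ))
                B)
          Filter.atTop (nhds 1) := by
  intro α a0 a1
  filter_upwards [Pool.Agent.Fa2423.subcritical α a0 a1] with z hz ε hε
  exact (hz ε hε).congr fun n => Pool.Agent.Fa2423.Ex_ind_eq _ _

end Pool.Agent.Results.MP_fa2423_pr.Subcritical
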